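import Pool.Agent.L0h89.FK.Basic

/-! # Common facts for the fractional Kolmogorov modules N1, R, S, E -/

set_option autoImplicit false
set_option linter.unusedVariables false

open MeasureTheory Set Filter Topology
open scoped ENNReal RealInnerProductSpace

namespace Pool.Agent.L0h93.FK

open Pool.Agent.L0h89.FK

/-- stretched exponentials of the norm are integrable -/
theorem integrable_exp_norm {E : Type*} [NormedAddCommGroup E] [NormedSpace ℝ E] [MeasurableSpace E]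
    [BorelSpace E] [FiniteDimensional ℝ E] [Nontrivial E] (μ : Measure E) [μ.IsAddHaarMeasure]
    {c p : ℝ} (hc : 0 < c) (hp : 0 < p) : Integrable (fun x : E => Real.exp (-(c * ‖x‖ ^ p))) μ := by
  have h := (integrable_fun_norm_addHaar μ (f := fun y : ℝ => Real.exp (-(c * y ^ p)))).2
  apply h
  have h2 := integrableOn_rpow_mul_exp_neg_mul_rpow (p := p) (s := ((Module.finrank ℝ E - 1 : ℕ) : ℝ))
    (b := c) (by
      have : (0 : ℝ) ≤ ((Module.finrank ℝ E - 1 : ℕ) : ℝ) := Nat.cast_nonneg _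
      linarith) hp hc
  refine h2.congr_fun (fun y hy => ?_) measurableSet_Ioi
  simp only [smul_eq_mul, Real.rpow_natCast]
  congr 2
  ring

theorem Phi_cont (d : ℕ) {s : ℝ} (hs : 0 < s) (t : ℝ) :
    Continuous fun p : V d × V d => Phi d s t p.1 p.2 := by
  unfold Phi
  refine intervalIntegral.continuous_parametric_intervalIntegral_of_continuous' ?_ 0 t
  refine Continuous.rpow_const (by fun_prop) fun x => Or.inr (by linarith)

theorem Phi_lower (d : ℕ) {s t : ℝ} (hs : 0 < s) (ht : 0 < t) : ∃ c0 : ℝ, 0 < c0 ∧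
    ∀ p : V d × V d, c0 * ‖p‖ ^ (2 * s) ≤ Phi d s t p.1 p.2 := by
  set c1 : ℝ := min (t / 3) (1 / 3) with hc1
  have hc1' : 0 < c1 := lt_min (by positivity) (by norm_num)
  refine ⟨t / 3 * c1 ^ (2 * s), by positivity, fun p => ?_⟩
  obtain ⟨ψ, ξ⟩ := p
  set f : ℝ → ℝ := fun τ => ‖ξ + τ • ψ‖ ^ (2 * s) with hf
  have hfc : Continuous f := Continuous.rpow_const (by fun_prop) fun x => Or.inr (by linarith)
  have hfi : ∀ a b, IntervalIntegrable f volume a b := fun a b => hfc.intervalIntegrable a b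
  have hf0 : ∀ τ, 0 ≤ f τ := fun τ => by positivity
  have h1 : Phi d s t ψ ξ = (∫ τ in (0:ℝ)..(t / 3), f τ) + (∫ τ in (t / 3)..(2 * t / 3), f τ) +
      ∫ τ in (2 * t / 3)..t, f τ := by
    rw [intervalIntegral.integral_add_adjacent_intervals (hfi _ _) (hfi _ _),
      intervalIntegral.integral_add_adjacent_intervals (hfi _ _) (hfi _ _)]
    rfl
  have h2 : 0 ≤ ∫ τ in (t / 3)..(2 * t / 3), f τ :=
    intervalIntegral.integral_nonneg (by linarith) fun τ _ => hf0 τ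
  have h3 : ∫ τ in (2 * t / 3)..t, f τ = ∫ τ in (0:ℝ)..(t / 3), f (τ + 2 * t / 3) := by
    rw [intervalIntegral.integral_comp_add_right]
    congr 1 <;> ring
  have h4 : ∀ τ ∈ Icc (0:ℝ) (t / 3), (c1 * ‖(ψ, ξ)‖) ^ (2 * s) ≤ f τ + f (τ + 2 * t / 3) := by
    intro τ hτ
    set u := ξ + τ • ψ with hu
    set u' := ξ + (τ + 2 * t / 3) • ψ with hu'
    have e1 : (2 * t / 3) • ψ = u' - u := by
      rw [hu, hu', add_smul]; abel
    have e2 : (2 * t / 3) • ξ = (τ + 2 * t / 3) • u - τ • u' := by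
      rw [hu, hu', smul_add, smul_add, smul_smul, smul_smul, add_smul (τ) (2 * t / 3) ξ,
        mul_comm τ (τ + 2 * t / 3)]
      abel
    have n1 : (2 * t / 3) * ‖ψ‖ ≤ ‖u‖ + ‖u'‖ := by
      have := norm_sub_le u' u
      rw [← e1, norm_smul, Real.norm_of_nonneg (by positivity)] at this
      linarith
    have n2 : (2 * t / 3) * ‖ξ‖ ≤ t * (‖u‖ + ‖u'‖) := by
      have := norm_sub_le ((τ + 2 * t / 3) • u) (τ • u')
      rw [← e2, norm_smul, norm_smul, norm_smul, Real.norm_of_nonneg (by positivity),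
        Real.norm_of_nonneg (by have := hτ.1; positivity), Real.norm_of_nonneg hτ.1] at this
      have h5 : (τ + 2 * t / 3) * ‖u‖ ≤ t * ‖u‖ :=
        mul_le_mul_of_nonneg_right (by linarith [hτ.2]) (norm_nonneg _)
      have h6 : τ * ‖u'‖ ≤ t * ‖u'‖ :=
        mul_le_mul_of_nonneg_right (by linarith [hτ.2]) (norm_nonneg _)
      linarith
    have n3 : c1 * ‖(ψ, ξ)‖ ≤ max ‖u‖ ‖u'‖ := by
      have m1 : ‖u‖ ≤ max ‖u‖ ‖u'‖ := le_max_left _ _
      have m2 : ‖u'‖ ≤ max ‖u‖ ‖u'‖ := le_max_right _ _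
      rw [Prod.norm_def]
      rcases max_choice ‖ψ‖ ‖ξ‖ with h | h
      · simp only [h]
        have : c1 * ‖ψ‖ ≤ t / 3 * ‖ψ‖ :=
          mul_le_mul_of_nonneg_right (min_le_left _ _) (norm_nonneg _)
        linarith
      · simp only [h]
        have h5 : c1 * ‖ξ‖ ≤ 1 / 3 * ‖ξ‖ :=
          mul_le_mul_of_nonneg_right (min_le_right _ _) (norm_nonneg _)
        have h6 : 2 / 3 * ‖ξ‖ ≤ ‖u‖ + ‖u'‖ := by
          have : t * (2 / 3 * ‖ξ‖) ≤ t * (‖u‖ + ‖u'‖) := by linarith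
          exact le_of_mul_le_mul_left this ht
        linarith
    have n4 : (c1 * ‖(ψ, ξ)‖) ^ (2 * s) ≤ (max ‖u‖ ‖u'‖) ^ (2 * s) :=
      Real.rpow_le_rpow (by positivity) n3 (by positivity)
    refine n4.trans ?_
    have g1 : 0 ≤ f τ := hf0 _
    have g2 : 0 ≤ f (τ + 2 * t / 3) := hf0 _
    rcases max_choice ‖u‖ ‖u'‖ with h | h
    · rw [h]
      have : f τ = ‖u‖ ^ (2 * s) := rfl
      linarith
    · rw [h]
      have : f (τ + 2 * t / 3) = ‖u'‖ ^ (2 * s) := rfl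
      linarith
  have h5 : t / 3 * (c1 * ‖(ψ, ξ)‖) ^ (2 * s) ≤ ∫ τ in (0:ℝ)..(t / 3), (f τ + f (τ + 2 * t / 3)) := by
    have := intervalIntegral.integral_mono_on (a := 0) (b := t / 3)
      (f := fun _ => (c1 * ‖(ψ, ξ)‖) ^ (2 * s)) (g := fun τ => f τ + f (τ + 2 * t / 3)) (by positivity)
      (by simp) ((hfi _ _).add ((hfc.comp (by fun_prop : Continuous fun τ : ℝ => τ + 2 * t / 3)).intervalIntegrable _ _)) h4
    simpa using this
  have h6 : ∫ τ in (0:ℝ)..(t / 3), (f τ + f (τ + 2 * t / 3)) =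
      (∫ τ in (0:ℝ)..(t / 3), f τ) + ∫ τ in (0:ℝ)..(t / 3), f (τ + 2 * t / 3) :=
    intervalIntegral.integral_add (hfi _ _)
      ((hfc.comp (by fun_prop : Continuous fun τ : ℝ => τ + 2 * t / 3)).intervalIntegrable _ _)
  rw [Real.mul_rpow hc1'.le (norm_nonneg _)] at h5
  rw [h1, h3, mul_assoc]
  linarith

theorem integrable_exp_Phi {d : ℕ} (hd : 1 ≤ d) {s t : ℝ} (hs : 0 < s) (ht : 0 < t) :
    Integrable (fun p : V d × V d => Real.exp (-Phi d s t p.1 p.2)) := by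
  obtain ⟨c0, hc0, h⟩ := Phi_lower d hs ht
  have : Nonempty (Fin d) := ⟨⟨0, hd⟩⟩
  have : Nontrivial (V d) := inferInstance
  have : (volume : Measure (V d × V d)).IsAddHaarMeasure :=
    inferInstanceAs ((volume : Measure (V d)).prod volume).IsAddHaarMeasure
  refine (integrable_exp_norm (volume : Measure (V d × V d)) hc0 (p := 2 * s) (by positivity)).mono'
    ?_ (Eventually.of_forall fun p => ?_)
  · exact (Real.continuous_exp.comp (Phi_cont d hs t).neg).aestronglyMeasurable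
  · rw [Real.norm_of_nonneg (Real.exp_pos _).le]
    exact Real.exp_le_exp.2 (neg_le_neg (h p))

/-- the quadratic form -/
noncomputable def qf {d : ℕ} (M : Mat) (ψ ξ : V d) : ℝ :=
  ‖ψ‖ ^ 2 * M.1 + 2 * ⟪ψ, ξ⟫ * M.2.1 + ‖ξ‖ ^ 2 * M.2.2

theorem qf_nonneg {d : ℕ} {t : ℝ} (ht : 0 < t) {M : Mat} (h : M ∈ cone t) (ψ ξ : V d) :
    0 ≤ qf M ψ ξ := by
  have hc := c_nonneg ht h
  obtain ⟨h1, h2, h3, h4, h5⟩ := h
  have hi := abs_real_inner_le_norm ψ ξ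
  unfold qf
  -- |2 b <ψ,ξ>| ≤ 2 b |ψ||ξ| ≤ a|ψ|² + c|ξ|²
  have h6 : (M.2.1 * (‖ψ‖ * ‖ξ‖)) ^ 2 ≤ (M.1 * ‖ψ‖ ^ 2) * (M.2.2 * ‖ξ‖ ^ 2) := by
    calc (M.2.1 * (‖ψ‖ * ‖ξ‖)) ^ 2 = M.2.1 ^ 2 * (‖ψ‖ * ‖ξ‖) ^ 2 := by ring
      _ ≤ (M.1 * M.2.2) * (‖ψ‖ * ‖ξ‖) ^ 2 := mul_le_mul_of_nonneg_right h5 (sq_nonneg _)
      _ = _ := by ring
  have h7 : 2 * (M.2.1 * (‖ψ‖ * ‖ξ‖)) ≤ M.1 * ‖ψ‖ ^ 2 + M.2.2 * ‖ξ‖ ^ 2 := by
    have g1 : 0 ≤ M.1 * ‖ψ‖ ^ 2 := by positivity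
    have g2 : 0 ≤ M.2.2 * ‖ξ‖ ^ 2 := by positivity
    have g3 : 0 ≤ M.2.1 * (‖ψ‖ * ‖ξ‖) := by positivity
    nlinarith [sq_nonneg (M.1 * ‖ψ‖ ^ 2 - M.2.2 * ‖ξ‖ ^ 2)]
  have h8 : -(M.2.1 * (‖ψ‖ * ‖ξ‖)) ≤ ⟪ψ, ξ⟫ * M.2.1 := by
    have := (abs_le.1 hi).1
    nlinarith
  nlinarith

/-- the Laplace transform of the law at a point of frequency space -/
theorem lap_qf {s t : ℝ} {P : Measure Mat} (hL : Law s t P) {d : ℕ} (hs : 0 < s) (ψ ξ : V d) :
    ∫ M, Real.exp (-qf M ψ ξ) ∂P = Real.exp (-Phi d s t ψ ξ) := by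
  have h := hL.lap (‖ψ‖ ^ 2) ⟪ψ, ξ⟫ (‖ξ‖ ^ 2) (sq_nonneg _) (sq_nonneg _) (by
    have := abs_real_inner_le_norm ψ ξ
    rw [← mul_pow, ← sq_abs ⟪ψ, ξ⟫]
    exact pow_le_pow_left₀ (abs_nonneg _) this 2)
  unfold qf
  rw [h]
  unfold Phi
  congr 2
  refine intervalIntegral.integral_congr fun τ _ => ?_
  beta_reduce
  have e : ‖ψ‖ ^ 2 * τ ^ 2 + 2 * ⟪ψ, ξ⟫ * τ + ‖ξ‖ ^ 2 = ‖ξ + τ • ψ‖ ^ 2 := by
    rw [norm_add_sq_real, norm_smul, inner_smul_right, real_inner_comm, mul_pow, Real.norm_eq_abs,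
      sq_abs]
    ring
  rw [e, ← Real.rpow_natCast, ← Real.rpow_mul (norm_nonneg _)]
  norm_num

theorem qf_cont {d : ℕ} : Continuous fun p : (V d × V d) × Mat => qf p.2 p.1.1 p.1.2 := by
  unfold qf; fun_prop

theorem qf_cont' {d : ℕ} (M : Mat) : Continuous fun p : V d × V d => qf M p.1 p.2 := by
  unfold qf; fun_prop

theorem integrable_lap {s t : ℝ} (ht : 0 < t) {P : Measure Mat} (hL : Law s t P) {d : ℕ} (ψ ξ : V d) :
    Integrable (fun M => Real.exp (-qf M ψ ξ)) P := by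
  have := hL.prob
  refine Integrable.of_bound (C := 1) ?_ ?_
  · refine Continuous.aestronglyMeasurable ?_
    unfold qf; fun_prop
  · filter_upwards [hL.supp] with M hM
    rw [Real.norm_of_nonneg (Real.exp_pos _).le, Real.exp_le_one_iff]
    linarith [qf_nonneg ht hM ψ ξ]

end Pool.Agent.L0h93.FK
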