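import Pool.Agent.L0h93.FK.Com

/-! # Gaussian integrals on `V d × V d` -/

set_option autoImplicit false
set_option linter.unusedVariables false

open MeasureTheory Set Filter Topology
open scoped ENNReal RealInnerProductSpace

namespace Pool.Agent.L0h93.FK

open Pool.Agent.L0h89.FK

/-- lower bound of the quadratic form -/
theorem qf_lower {d : ℕ} {t : ℝ} (ht : 0 < t) {M : Mat} (h : M ∈ cone t) (hd : 0 < det M) (ψ ξ : V d) :
    det M / (M.1 + M.2.2) * (‖ψ‖ ^ 2 + ‖ξ‖ ^ 2) ≤ qf M ψ ξ := by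
  have hc := c_pos ht h hd
  have ha : 0 < M.1 := by
    obtain ⟨h1, h2, h3, h4, h5⟩ := h
    rcases h3.lt_or_eq with h6 | h6
    · exact h6
    · exfalso
      unfold det at hd
      rw [← h6] at hd
      nlinarith [sq_nonneg M.2.1]
  obtain ⟨h1, h2, h3, h4, h5⟩ := h
  set l := det M / (M.1 + M.2.2) with hl
  have hl0 : 0 < l := by positivity
  have hlm : l * (M.1 + M.2.2) = det M := by rw [hl]; field_simp
  have g1 : 0 ≤ M.1 - l := by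
    rw [sub_nonneg, hl, div_le_iff₀ (by positivity)]
    unfold det; nlinarith [sq_nonneg M.2.1]
  have g2 : 0 ≤ M.2.2 - l := by
    rw [sub_nonneg, hl, div_le_iff₀ (by positivity)]
    unfold det; nlinarith [sq_nonneg M.2.1]
  have g3 : M.2.1 ^ 2 ≤ (M.1 - l) * (M.2.2 - l) := by
    have : (M.1 - l) * (M.2.2 - l) = M.1 * M.2.2 - l * (M.1 + M.2.2) + l ^ 2 := by ring
    rw [this, hlm]
    unfold det
    nlinarith [sq_nonneg l]
  have hi := abs_real_inner_le_norm ψ ξ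
  unfold qf
  have h6 : (M.2.1 * (‖ψ‖ * ‖ξ‖)) ^ 2 ≤ ((M.1 - l) * ‖ψ‖ ^ 2) * ((M.2.2 - l) * ‖ξ‖ ^ 2) := by
    calc (M.2.1 * (‖ψ‖ * ‖ξ‖)) ^ 2 = M.2.1 ^ 2 * (‖ψ‖ * ‖ξ‖) ^ 2 := by ring
      _ ≤ ((M.1 - l) * (M.2.2 - l)) * (‖ψ‖ * ‖ξ‖) ^ 2 := mul_le_mul_of_nonneg_right g3 (sq_nonneg _)
      _ = _ := by ring
  have h7 : 2 * (M.2.1 * (‖ψ‖ * ‖ξ‖)) ≤ (M.1 - l) * ‖ψ‖ ^ 2 + (M.2.2 - l) * ‖ξ‖ ^ 2 := by
    have g1 : 0 ≤ (M.1 - l) * ‖ψ‖ ^ 2 := by positivity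
    have g2 : 0 ≤ (M.2.2 - l) * ‖ξ‖ ^ 2 := by positivity
    have g3 : 0 ≤ M.2.1 * (‖ψ‖ * ‖ξ‖) := by positivity
    nlinarith [sq_nonneg ((M.1 - l) * ‖ψ‖ ^ 2 - (M.2.2 - l) * ‖ξ‖ ^ 2)]
  have h8 : -(M.2.1 * (‖ψ‖ * ‖ξ‖)) ≤ ⟪ψ, ξ⟫ * M.2.1 := by
    have := (abs_le.1 hi).1
    nlinarith
  nlinarith

theorem integrable_exp_qf {d : ℕ} (hd1 : 1 ≤ d) {t : ℝ} (ht : 0 < t) {M : Mat} (h : M ∈ cone t)
    (hd : 0 < det M) : Integrable (fun p : V d × V d => Real.exp (-qf M p.1 p.2)) := by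
  have hc := c_pos ht h hd
  have ha := h.2.2.1
  have : Nonempty (Fin d) := ⟨⟨0, hd1⟩⟩
  have : Nontrivial (V d) := inferInstance
  have : (volume : Measure (V d × V d)).IsAddHaarMeasure :=
    inferInstanceAs ((volume : Measure (V d)).prod volume).IsAddHaarMeasure
  have hl : 0 < det M / (M.1 + M.2.2) := by positivity
  refine (integrable_exp_norm (volume : Measure (V d × V d)) hl (p := 2) (by positivity)).mono'
    ?_ (Eventually.of_forall fun p => ?_)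
  · exact (Real.continuous_exp.comp (qf_cont' M).neg).aestronglyMeasurable
  · rw [Real.norm_of_nonneg (Real.exp_pos _).le]
    refine Real.exp_le_exp.2 (neg_le_neg (le_trans ?_ (qf_lower ht h hd p.1 p.2)))
    refine mul_le_mul_of_nonneg_left ?_ hl.le
    rw [Prod.norm_def, Real.rpow_two]
    rcases max_choice ‖p.1‖ ‖p.2‖ with h1 | h1
    · rw [h1]; nlinarith [sq_nonneg ‖p.2‖]
    · rw [h1]; nlinarith [sq_nonneg ‖p.1‖]

/-- one variable Gaussian Fourier transform -/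
theorem gauss_one {d : ℕ} {b : ℝ} (hb : 0 < b) (w : V d) :
    ∫ ξ : V d, Complex.exp (-(b : ℂ) * (‖ξ‖ : ℂ) ^ 2 + Complex.I * ((⟪w, ξ⟫ : ℝ) : ℂ)) =
      (((Real.pi / b) ^ ((d : ℝ) / 2) * Real.exp (-(‖w‖ ^ 2 / (4 * b))) : ℝ) : ℂ) := by
  have h := GaussianFourier.integral_cexp_neg_mul_sq_norm_add (V := V d) (b := (b : ℂ))
    (by simpa using hb) Complex.I w
  rw [h]
  push_cast
  congr 1
  · rw [finrank_euclideanSpace_fin, ← Complex.ofReal_div, Complex.ofReal_cpow (by positivity)]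
    push_cast; rfl
  · congr 1
    rw [Complex.I_sq]
    ring

theorem gauss_one_re {d : ℕ} {b : ℝ} (hb : 0 < b) (w : V d) :
    ∫ ξ : V d, Real.cos ⟪w, ξ⟫ * Real.exp (-(b * ‖ξ‖ ^ 2)) =
      (Real.pi / b) ^ ((d : ℝ) / 2) * Real.exp (-(‖w‖ ^ 2 / (4 * b))) := by
  have h := gauss_one hb w
  have hint := GaussianFourier.integrable_cexp_neg_mul_sq_norm_add (V := V d) (b := (b : ℂ))
    (by simpa using hb) Complex.I w
  have h2 : (∫ ξ : V d, Complex.exp (-(b : ℂ) * (‖ξ‖ : ℂ) ^ 2 + Complex.I * ((⟪w, ξ⟫ : ℝ) : ℂ))).re =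
      ∫ ξ : V d, (Complex.exp (-(b : ℂ) * (‖ξ‖ : ℂ) ^ 2 + Complex.I * ((⟪w, ξ⟫ : ℝ) : ℂ))).re :=
    (integral_re hint).symm
  rw [h, Complex.ofReal_re] at h2
  rw [h2]
  refine integral_congr_ae (Eventually.of_forall fun ξ => ?_)
  beta_reduce
  have e0 : (-(b : ℂ) * (‖ξ‖ : ℂ) ^ 2 + Complex.I * ((⟪w, ξ⟫ : ℝ) : ℂ)) =
      ((-(b * ‖ξ‖ ^ 2) : ℝ) : ℂ) + Complex.I * ((⟪w, ξ⟫ : ℝ) : ℂ) := by
    push_cast; ring
  rw [e0, Complex.exp_re]
  simp only [Complex.add_re, Complex.add_im, Complex.ofReal_re, Complex.ofReal_im, Complex.mul_re,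
    Complex.mul_im, Complex.I_re, Complex.I_im, zero_mul, mul_zero, sub_zero, add_zero, one_mul,
    zero_add]
  ring

/-- the two variable Gaussian Fourier transform (complex form) -/
theorem gauss_two {d : ℕ} (hd1 : 1 ≤ d) {t : ℝ} (ht : 0 < t) {M : Mat} (h : M ∈ cone t)
    (hd : 0 < det M) (x v : V d) :
    ∫ p : V d × V d, Complex.exp (-(qf M p.1 p.2 : ℂ) + Complex.I * ((⟪x, p.1⟫ + ⟪v, p.2⟫ : ℝ) : ℂ)) =
      ((Real.pi ^ (d : ℝ) * det M ^ (-((d : ℝ) / 2)) *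
        Real.exp (-((M.2.2 * ‖x‖ ^ 2 - 2 * M.2.1 * ⟪x, v⟫ + M.1 * ‖v‖ ^ 2) / (4 * det M))) : ℝ) : ℂ) := by
  have hc := c_pos ht h hd
  set a := M.1 with ha
  set b := M.2.1 with hb
  set c := M.2.2 with hcdef
  have hdet : a * c = det M + b ^ 2 := by rw [ha, hb, hcdef]; unfold det; ring
  have hint : Integrable (fun p : V d × V d =>
      Complex.exp (-(qf M p.1 p.2 : ℂ) + Complex.I * ((⟪x, p.1⟫ + ⟪v, p.2⟫ : ℝ) : ℂ))) := by
    refine (integrable_exp_qf hd1 ht h hd).mono' ?_ (Eventually.of_forall fun p => ?_)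
    · refine Continuous.aestronglyMeasurable ?_
      unfold qf; fun_prop
    · rw [Complex.norm_exp]
      refine le_of_eq ?_
      congr 1
      simp
  rw [Measure.volume_eq_prod, integral_prod _ (by rwa [← Measure.volume_eq_prod])]
  have h1 : ∀ ψ : V d, ∫ ξ : V d, Complex.exp (-(qf M ψ ξ : ℂ) + Complex.I * ((⟪x, ψ⟫ + ⟪v, ξ⟫ : ℝ) : ℂ)) =
      (((Real.pi / c) ^ ((d : ℝ) / 2) * Real.exp (-(‖v‖ ^ 2 / (4 * c))) : ℝ) : ℂ) *
        Complex.exp (-((det M / c : ℝ) : ℂ) * (‖ψ‖ : ℂ) ^ 2 + Complex.I * ((⟪x - (b / c) • v, ψ⟫ : ℝ) : ℂ)) := by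
    intro ψ
    rw [← gauss_one hc v, mul_comm, ← integral_const_mul]
    rw [← integral_add_right_eq_self (fun ξ : V d => Complex.exp (-((det M / c : ℝ) : ℂ) * (‖ψ‖ : ℂ) ^ 2 +
      Complex.I * ((⟪x - (b / c) • v, ψ⟫ : ℝ) : ℂ)) *
      Complex.exp (-(c : ℂ) * (‖ξ‖ : ℂ) ^ 2 + Complex.I * ((⟪v, ξ⟫ : ℝ) : ℂ))) ((b / c) • ψ)]
    refine integral_congr_ae (Eventually.of_forall fun ξ => ?_)
    beta_reduce
    rw [← Complex.exp_add]
    congr 1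
    have e1 : (qf M ψ ξ : ℝ) = det M / c * ‖ψ‖ ^ 2 + c * ‖ξ + (b / c) • ψ‖ ^ 2 := by
      unfold qf
      rw [norm_add_sq_real, norm_smul, inner_smul_right, real_inner_comm, mul_pow, Real.norm_eq_abs,
        sq_abs, ← ha, ← hb, ← hcdef]
      field_simp
      linear_combination ‖ψ‖ ^ 2 * hdet
    have e2 : (⟪x, ψ⟫ + ⟪v, ξ⟫ : ℝ) = ⟪x - (b / c) • v, ψ⟫ + ⟪v, ξ + (b / c) • ψ⟫ := by
      rw [inner_sub_left, inner_add_right, inner_smul_left, inner_smul_right]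
      simp
    rw [e1, e2]
    push_cast
    ring
  simp only [h1]
  rw [integral_const_mul, gauss_one (div_pos hd hc), ← Complex.ofReal_mul]
  congr 1
  have e3 : (Real.pi / c) ^ ((d : ℝ) / 2) * (Real.pi / (det M / c)) ^ ((d : ℝ) / 2) =
      Real.pi ^ (d : ℝ) * det M ^ (-((d : ℝ) / 2)) := by
    rw [← Real.mul_rpow (by positivity) (by positivity)]
    have : Real.pi / c * (Real.pi / (det M / c)) = Real.pi ^ (2 : ℝ) * (det M)⁻¹ := by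
      rw [Real.rpow_two]; field_simp
    rw [this, Real.mul_rpow (by positivity) (by positivity), ← Real.rpow_mul Real.pi_pos.le,
      Real.inv_rpow hd.le, Real.rpow_neg hd.le]
    congr 2
    ring
  have e4 : Real.exp (-(‖v‖ ^ 2 / (4 * c))) * Real.exp (-(‖x - (b / c) • v‖ ^ 2 / (4 * (det M / c)))) =
      Real.exp (-((c * ‖x‖ ^ 2 - 2 * b * ⟪x, v⟫ + a * ‖v‖ ^ 2) / (4 * det M))) := by
    rw [← Real.exp_add]
    congr 1
    rw [norm_sub_sq_real, norm_smul, inner_smul_right, mul_pow, Real.norm_eq_abs, sq_abs]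
    field_simp
    linear_combination ‖v‖ ^ 2 * hdet
  calc _ = ((Real.pi / c) ^ ((d : ℝ) / 2) * (Real.pi / (det M / c)) ^ ((d : ℝ) / 2)) *
        (Real.exp (-(‖v‖ ^ 2 / (4 * c))) *
          Real.exp (-(‖x - (b / c) • v‖ ^ 2 / (4 * (det M / c))))) := by ring
    _ = _ := by rw [e3, e4]

theorem gauss_two_re {d : ℕ} (hd1 : 1 ≤ d) {t : ℝ} (ht : 0 < t) {M : Mat} (h : M ∈ cone t)
    (hd : 0 < det M) (x v : V d) :
    ∫ p : V d × V d, Real.cos (⟪x, p.1⟫ + ⟪v, p.2⟫) * Real.exp (-qf M p.1 p.2) =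
      Real.pi ^ (d : ℝ) * det M ^ (-((d : ℝ) / 2)) *
        Real.exp (-((M.2.2 * ‖x‖ ^ 2 - 2 * M.2.1 * ⟪x, v⟫ + M.1 * ‖v‖ ^ 2) / (4 * det M))) := by
  have hint : Integrable (fun p : V d × V d =>
      Complex.exp (-(qf M p.1 p.2 : ℂ) + Complex.I * ((⟪x, p.1⟫ + ⟪v, p.2⟫ : ℝ) : ℂ))) := by
    refine (integrable_exp_qf hd1 ht h hd).mono' ?_ (Eventually.of_forall fun p => ?_)
    · refine Continuous.aestronglyMeasurable ?_
      unfold qf; fun_prop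
    · rw [Complex.norm_exp]
      refine le_of_eq ?_
      congr 1
      simp
  have h2 : (∫ p : V d × V d, Complex.exp (-(qf M p.1 p.2 : ℂ) +
      Complex.I * ((⟪x, p.1⟫ + ⟪v, p.2⟫ : ℝ) : ℂ))).re =
      ∫ p : V d × V d, (Complex.exp (-(qf M p.1 p.2 : ℂ) +
      Complex.I * ((⟪x, p.1⟫ + ⟪v, p.2⟫ : ℝ) : ℂ))).re := (integral_re hint).symm
  rw [gauss_two hd1 ht h hd, Complex.ofReal_re] at h2
  rw [h2]
  refine integral_congr_ae (Eventually.of_forall fun p => ?_)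
  beta_reduce
  rw [Complex.exp_re]
  have e1 : (-(qf M p.1 p.2 : ℂ) + Complex.I * ((⟪x, p.1⟫ + ⟪v, p.2⟫ : ℝ) : ℂ)).re = -qf M p.1 p.2 := by
    simp
  have e2 : (-(qf M p.1 p.2 : ℂ) + Complex.I * ((⟪x, p.1⟫ + ⟪v, p.2⟫ : ℝ) : ℂ)).im =
      ⟪x, p.1⟫ + ⟪v, p.2⟫ := by
    simp
  rw [e1, e2]
  ring

end Pool.Agent.L0h93.FK
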